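import Mathlib

/-! Hartogs type step: superexponential decay on a real segment implies the same at the end point. -/

namespace Pool.Agent.H189R3.NLS

open Finset MeasureTheory

/-- separated points in a set of large measure -/
lemma exists_points (s : ℝ) (hs : 0 < s) : ∀ n : ℕ, ∀ E : Set ℝ, BddBelow E →
    ENNReal.ofReal (2 * n * s) < volume E →
    ∃ z : ℕ → ℝ, (∀ i, i ≤ n → z i ∈ E) ∧ (∀ i, i < n → z i + s ≤ z (i+1)) := by
  intro n
  induction n with
  | zero =>
    intro E _ hE
    have : E.Nonempty := by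
      by_contra h
      rw [Set.not_nonempty_iff_eq_empty] at h
      rw [h] at hE
      simp at hE
    obtain ⟨x, hx⟩ := this
    exact ⟨fun _ => x, fun _ _ => hx, fun i hi => absurd hi (Nat.not_lt_zero i)⟩
  | succ n ih =>
    intro E hb hE
    have hne : E.Nonempty := by
      by_contra h
      rw [Set.not_nonempty_iff_eq_empty] at h
      rw [h] at hE
      simp at hE
    obtain ⟨x, hx, hxs⟩ := Real.lt_sInf_add_pos hne hs
    set E' := E ∩ Set.Ici (x + s) with hE'
    have hsub : E ⊆ E' ∪ Set.Ico (sInf E) (x + s) := by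
      intro y hy
      by_cases h : x + s ≤ y
      · exact Or.inl ⟨hy, h⟩
      · exact Or.inr ⟨csInf_le hb hy, not_le.mp h⟩
    have hv : volume E ≤ volume E' + ENNReal.ofReal (2 * s) := by
      calc volume E ≤ volume (E' ∪ Set.Ico (sInf E) (x + s)) := measure_mono hsub
        _ ≤ volume E' + volume (Set.Ico (sInf E) (x + s)) := measure_union_le _ _
        _ ≤ volume E' + ENNReal.ofReal (2 * s) := by
            gcongr
            rw [Real.volume_Ico]
            apply ENNReal.ofReal_le_ofReal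
            linarith
    have hE2 : ENNReal.ofReal (2 * n * s) < volume E' := by
      by_contra hcon
      rw [not_lt] at hcon
      have h3 : volume E ≤ ENNReal.ofReal (2 * n * s) + ENNReal.ofReal (2 * s) :=
        hv.trans (by gcongr)
      rw [← ENNReal.ofReal_add (by positivity) (by positivity)] at h3
      have h4 := lt_of_lt_of_le hE h3
      have h5 : (2 * ((n+1 : ℕ) : ℝ) * s) = 2 * n * s + 2 * s := by push_cast; ring
      rw [h5] at h4
      exact lt_irrefl _ h4
    obtain ⟨z, hz1, hz2⟩ := ih E' (hb.mono Set.inter_subset_left) hE2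
    refine ⟨fun i => if i = 0 then x else z (i-1), ?_, ?_⟩
    · intro i hi
      by_cases h0 : i = 0
      · simp [h0, hx]
      · simp only [h0, if_false]
        exact (hz1 (i-1) (by omega)).1
    · intro i hi
      by_cases h0 : i = 0
      · subst h0
        simp only [if_true, zero_add, one_ne_zero, if_false, Nat.sub_self]
        exact (hz1 0 (by omega)).2
      · have h1 : i + 1 ≠ 0 := by omega
        simp only [h0, h1, if_false]
        have := hz2 (i-1) (by omega)
        rw [show i - 1 + 1 = i by omega] at this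
        rw [show i + 1 - 1 = i by omega]
        exact this

lemma gap_le {n : ℕ} {s : ℝ} {z : ℕ → ℝ} (hz : ∀ i, i < n → z i + s ≤ z (i+1)) :
    ∀ j, j ≤ n → ∀ i, i ≤ j → z i + s * (j - i : ℝ) ≤ z j := by
  intro j
  induction j with
  | zero => intro _ i hi; have : i = 0 := by omega
            subst this; simp
  | succ j ih =>
    intro hj i hi
    rcases Nat.lt_or_ge j i with h | h
    · have : i = j + 1 := by omega
      subst this; simp
    · have h1 := ih (by omega) i h
      have h2 := hz j (by omega)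
      push_cast
      nlinarith

lemma prod_base (i : ℕ) : ∏ j ∈ range i, |(i:ℝ) - j| = (i.factorial : ℝ) := by
  rw [← Finset.prod_range_reflect]
  rw [← Finset.prod_range_add_one_eq_factorial]
  push_cast
  apply Finset.prod_congr rfl
  intro j hj
  have hj' := Finset.mem_range.mp hj
  have : ((i - 1 - j : ℕ) : ℝ) = (i:ℝ) - 1 - j := by
    rw [Nat.cast_sub (by omega), Nat.cast_sub (by omega)]; simp
  rw [this]
  rw [show (i:ℝ) - ((i:ℝ) - 1 - j) = (j:ℝ) + 1 by ring]
  exact abs_of_pos (by positivity)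

lemma prod_erase (i : ℕ) : ∀ N, i ≤ N → ∏ j ∈ (range (N+1)).erase i, |(i:ℝ) - j|
    = (i.factorial : ℝ) * ((N - i).factorial : ℝ) := by
  intro N hN
  induction N, hN using Nat.le_induction with
  | base =>
    have : (range (i+1)).erase i = range i := by
      rw [Finset.range_add_one, Finset.erase_insert Finset.notMem_range_self]
    rw [this, prod_base]; simp
  | succ N hN ih =>
    have h1 : (range (N+1+1)).erase i = insert (N+1) ((range (N+1)).erase i) := by
      ext x
      simp only [Finset.mem_erase, Finset.mem_range, Finset.mem_insert]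
      omega
    rw [h1, Finset.prod_insert (by simp), ih]
    have h2 : |(i:ℝ) - ((N+1 : ℕ):ℝ)| = ((N + 1 - i : ℕ) : ℝ) := by
      rw [Nat.cast_sub (by omega), abs_sub_comm]
      apply abs_of_nonneg
      have : (i:ℝ) ≤ N := by exact_mod_cast hN
      push_cast; linarith
    rw [h2, show N + 1 - i = (N - i) + 1 by omega, Nat.factorial_succ]
    push_cast; ring

/-- extrapolation to zero -/
lemma extrapolate (N : ℕ) (P : Polynomial ℂ) (hP : P.natDegree ≤ N) (ℓ : ℝ) (hℓ : 0 < ℓ)
    (z : ℕ → ℝ) (hz0 : ∀ i, i ≤ N → 0 ≤ z i ∧ z i ≤ ℓ)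
    (hz : ∀ i, i < N → z i + ℓ / (4 * (N+1)) ≤ z (i+1)) (η : ℝ)
    (hη : ∀ i, i ≤ N → ‖P.eval (z i : ℂ)‖ ≤ η) :
    ‖P.eval 0‖ ≤ 3 * (8 * Real.exp 1) ^ N * η := by
  have hs : 0 < ℓ / (4 * (N+1)) := by positivity
  set s := ℓ / (4 * ((N:ℝ)+1)) with hsdef
  have hη0 : 0 ≤ η := (norm_nonneg _).trans (hη 0 (by omega))
  have hgap := gap_le hz
  have hgap2 : ∀ i j, i ≤ N → j ≤ N → s * |(i:ℝ) - j| ≤ |z i - z j| := by
    intro i j hi hj
    rcases le_total i j with h | h
    · have h1 := hgap j hj i h
      have h2 : (i:ℝ) ≤ j := by exact_mod_cast h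
      rw [abs_sub_comm (i:ℝ), abs_of_nonneg (by linarith : (0:ℝ) ≤ (j:ℝ) - i), abs_sub_comm (z i)]
      exact (by linarith : s * ((j:ℝ) - i) ≤ z j - z i).trans (le_abs_self _)
    · have h1 := hgap i hi j h
      have h2 : (j:ℝ) ≤ i := by exact_mod_cast h
      rw [abs_of_nonneg (by linarith : (0:ℝ) ≤ (i:ℝ) - j)]
      exact (by linarith : s * ((i:ℝ) - j) ≤ z i - z j).trans (le_abs_self _)
  have hinj : Set.InjOn (fun i : ℕ => (z i : ℂ)) (range (N+1) : Finset ℕ) := by
    intro i hi j hj hij
    have hi' : i ≤ N := by have := Finset.mem_range.mp (Finset.mem_coe.mp hi); omega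
    have hj' : j ≤ N := by have := Finset.mem_range.mp (Finset.mem_coe.mp hj); omega
    by_contra hne
    have h1 := hgap2 i j hi' hj'
    have h2 : z i = z j := by
      have h3 : ((z i : ℝ) : ℂ) = ((z j : ℝ) : ℂ) := hij
      exact_mod_cast h3
    rw [h2, sub_self, abs_zero] at h1
    have h3 : 0 < |(i:ℝ) - j| := by
      apply abs_pos.mpr
      intro h
      apply hne
      have : (i:ℝ) = j := by linarith
      exact_mod_cast this
    have := mul_pos hs h3
    linarith
  have hdeg : P.degree < (range (N+1)).card := by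
    rw [Finset.card_range]
    calc P.degree ≤ (P.natDegree : WithBot ℕ) := Polynomial.degree_le_natDegree
      _ ≤ (N : WithBot ℕ) := by exact_mod_cast hP
      _ < ((N+1 : ℕ) : WithBot ℕ) := by exact_mod_cast Nat.lt_succ_self N
  have hint := Lagrange.eq_interpolate hinj hdeg
  have heval : P.eval 0 = ∑ i ∈ range (N+1), P.eval (z i : ℂ) *
      ∏ j ∈ (range (N+1)).erase i, (((z i : ℂ) - z j)⁻¹ * (0 - z j)) := by
    conv_lhs => rw [hint]
    rw [Lagrange.interpolate_apply, Polynomial.eval_finsetSum]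
    apply Finset.sum_congr rfl
    intro i _
    rw [Polynomial.eval_mul, Polynomial.eval_C, Lagrange.basis, Polynomial.eval_prod]
    congr 1
    apply Finset.prod_congr rfl
    intro j _
    simp [Lagrange.basisDivisor]
  rw [heval]
  have hterm : ∀ i ∈ range (N+1), ‖P.eval (z i : ℂ) *
      ∏ j ∈ (range (N+1)).erase i, (((z i : ℂ) - z j)⁻¹ * (0 - z j))‖
      ≤ η * ((4 * ((N:ℝ)+1))^N / ((i.factorial : ℝ) * ((N - i).factorial : ℝ))) := by
    intro i hi
    have hi' : i ≤ N := by have := Finset.mem_range.mp hi; omega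
    rw [norm_mul]
    apply mul_le_mul (hη i hi') _ (norm_nonneg _) hη0
    rw [norm_prod]
    have h1 : ∏ j ∈ (range (N+1)).erase i, ‖(((z i : ℂ) - z j)⁻¹ * (0 - z j))‖
        ≤ ∏ j ∈ (range (N+1)).erase i, (4 * ((N:ℝ)+1)) / |(i:ℝ) - j| := by
      apply Finset.prod_le_prod
      · intro j _; exact norm_nonneg _
      · intro j hj
        have hj1 := (Finset.mem_erase.mp hj).1
        have hj' : j ≤ N := by have := Finset.mem_range.mp (Finset.mem_erase.mp hj).2; omega
        have h3 : 0 < |(i:ℝ) - j| := by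
          apply abs_pos.mpr
          intro h
          apply hj1
          have : (i:ℝ) = j := by linarith
          exact_mod_cast this.symm
        have h4 : ‖(z i : ℂ) - z j‖ = |z i - z j| := by
          rw [← Complex.ofReal_sub, Complex.norm_real]; rfl
        have h5 : ‖(0:ℂ) - z j‖ ≤ ℓ := by
          rw [zero_sub, norm_neg, Complex.norm_real, Real.norm_eq_abs, abs_of_nonneg (hz0 j hj').1]
          exact (hz0 j hj').2
        rw [norm_mul, norm_inv, h4]
        have h6 := hgap2 i j hi' hj'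
        have h7 : |z i - z j|⁻¹ ≤ (s * |(i:ℝ) - j|)⁻¹ :=
          inv_anti₀ (mul_pos hs h3) h6
        calc |z i - z j|⁻¹ * ‖(0:ℂ) - z j‖ ≤ (s * |(i:ℝ) - j|)⁻¹ * ℓ := by
              apply mul_le_mul h7 h5 (norm_nonneg _) (by positivity)
          _ = (4 * ((N:ℝ)+1)) / |(i:ℝ) - j| := by
              rw [hsdef]; field_simp
    refine h1.trans ?_
    rw [Finset.prod_div_distrib, prod_erase i N hi', Finset.prod_const, Finset.card_erase_of_mem hi,
      Finset.card_range, Nat.add_sub_cancel]
  refine (norm_sum_le _ _).trans ((Finset.sum_le_sum hterm).trans ?_)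
  rw [← Finset.mul_sum]
  have hsum : ∑ i ∈ range (N+1), ((4 * ((N:ℝ)+1))^N / ((i.factorial : ℝ) * ((N - i).factorial : ℝ)))
      = (4 * ((N:ℝ)+1))^N / (N.factorial : ℝ) * 2 ^ N := by
    have h2 : (2:ℝ)^N = ∑ i ∈ range (N+1), ((N.choose i : ℕ) : ℝ) := by
      have := Nat.sum_range_choose N
      exact_mod_cast this.symm
    rw [h2, Finset.mul_sum]
    apply Finset.sum_congr rfl
    intro i hi
    have hi' : i ≤ N := by have := Finset.mem_range.mp hi; omega
    have h3 : ((N.choose i : ℕ) : ℝ) * (i.factorial : ℝ) * ((N-i).factorial : ℝ) = (N.factorial : ℝ) := by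
      exact_mod_cast Nat.choose_mul_factorial_mul_factorial hi'
    have h4 : (i.factorial : ℝ) ≠ 0 := by exact_mod_cast Nat.factorial_ne_zero i
    have h5 : ((N-i).factorial : ℝ) ≠ 0 := by exact_mod_cast Nat.factorial_ne_zero _
    have h6 : (N.factorial : ℝ) ≠ 0 := by exact_mod_cast Nat.factorial_ne_zero _
    field_simp
    linear_combination (-1 : ℝ) * (1:ℝ) * h3
  rw [hsum]
  have h8 : ((N:ℝ)+1)^N / (N.factorial : ℝ) ≤ Real.exp 1 * (Real.exp 1)^N := by
    have h9 := Real.pow_div_factorial_le_exp ((N:ℝ)+1) (by positivity) (N+1)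
    have h10 : ((N:ℝ)+1)^(N+1) / ((N+1).factorial : ℝ) = ((N:ℝ)+1)^N / (N.factorial : ℝ) := by
      rw [Nat.factorial_succ, pow_succ]
      push_cast
      have : (N.factorial : ℝ) ≠ 0 := by exact_mod_cast Nat.factorial_ne_zero _
      field_simp
    rw [h10] at h9
    refine h9.trans (le_of_eq ?_)
    rw [Real.exp_add, ← Real.exp_nat_mul, mul_one, mul_comm]
  have he : Real.exp 1 ≤ 3 := by
    have := Real.exp_one_lt_d9
    linarith
  calc η * ((4 * ((N:ℝ)+1))^N / (N.factorial : ℝ) * 2 ^ N)
      = (8^N * (((N:ℝ)+1)^N / (N.factorial : ℝ))) * η := by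
        rw [mul_pow, show (8:ℝ) = 4 * 2 by norm_num, mul_pow]; ring
    _ ≤ (8^N * (Real.exp 1 * (Real.exp 1)^N)) * η := by gcongr
    _ ≤ (8^N * (3 * (Real.exp 1)^N)) * η := by gcongr
    _ = 3 * (8 * Real.exp 1) ^ N * η := by rw [mul_pow]; ring

end Pool.Agent.H189R3.NLS
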